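import Mathlib

namespace Pool.Agent.H.MP_5f7e36_co

open Set Metric Filter Topology

variable {n : ℕ} {ι : Type*}

/-- Sign. -/
def sb (b : Bool) : ℝ := if b then 1 else -1

theorem sb_sq (b : Bool) : sb b * sb b = 1 := by cases b <;> simp [sb]

/-- Helly step for one direction orthant. -/
theorem orth (F : Finset ι) (lo hi : ι → Fin (n + 1) → ℝ)
    (h : ∀ G ⊆ F, G.card ≤ 2 * n + 1 → ∃ p v : Fin (n + 1) → ℝ, (∀ i, 0 < v i) ∧
      ∀ B ∈ G, ∃ t : ℝ, ∀ i, lo B i ≤ p i + t * v i ∧ p i + t * v i ≤ hi B i) :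
    ∃ p v : Fin (n + 1) → ℝ, (∀ i, 0 < v i) ∧
      ∀ B ∈ F, ∃ t : ℝ, ∀ i, lo B i ≤ p i + t * v i ∧ p i + t * v i ≤ hi B i := by
  classical
  let U : (Fin n → ℝ) × (Fin n → ℝ) → Fin (n + 1) → ℝ := fun z => Fin.cons 1 z.1
  let W : (Fin n → ℝ) × (Fin n → ℝ) → Fin (n + 1) → ℝ := fun z => Fin.cons 0 z.2
  have aU : ∀ x y (a b : ℝ), a + b = 1 → ∀ i, U (a • x + b • y) i = a * U x i + b * U y i :=
    fun x y a b e i => Fin.cases (by simp [U, e]) (fun i => by simp [U]) i
  have aW : ∀ x y (a b : ℝ) i, W (a • x + b • y) i = a * W x i + b * W y i :=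
    fun x y a b i => Fin.cases (by simp [W]) (fun i => by simp [W]) i
  rcases F.eq_empty_or_nonempty with rfl | ⟨B0, hB0⟩
  · exact h ∅ subset_rfl (by simp)
  obtain ⟨z, hz⟩ := Convex.helly_theorem' (𝕜 := ℝ) (s := F) (F := fun B => {z | (∀ i, 0 < U z i) ∧
      ∀ i j, lo B i * U z i - W z i ≤ hi B j * U z j - W z j})
    (fun B _ x hx y hy a b ha hb e => ⟨fun i => by
      rw [aU x y a b e]
      have := hx.1 i
      have := hy.1 i
      rcases ha.eq_or_lt with rfl | ha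
      · simp_all
      · positivity, fun i j => by
      rw [aU x y a b e, aU x y a b e, aW, aW]
      linarith [mul_le_mul_of_nonneg_left (hx.2 i j) ha, mul_le_mul_of_nonneg_left (hy.2 i j) hb]⟩)
    fun G hG hc => by
      obtain ⟨p, v, hv, k⟩ := h G hG (by simpa [two_mul] using hc)
      have e1 : ∀ i, U (fun i => v 0 / v i.succ, fun i => p i.succ * (v 0 / v i.succ) - p 0) i =
          v 0 / v i := fun i => Fin.cases (by simp [U, (hv 0).ne']) (fun i => rfl) i
      have e2 : ∀ i, W (fun i => v 0 / v i.succ, fun i => p i.succ * (v 0 / v i.succ) - p 0) i =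
          p i * (v 0 / v i) - p 0 := fun i =>
        Fin.cases (by simp [W, (hv 0).ne']) (fun i => rfl) i
      refine ⟨(fun i => v 0 / v i.succ, fun i => p i.succ * (v 0 / v i.succ) - p 0),
        mem_iInter₂.2 fun B hB => ⟨fun i => e1 i ▸ div_pos (hv 0) (hv i), fun i j => ?_⟩⟩
      obtain ⟨t, ht⟩ := k B hB
      rw [e1, e1, e2, e2]
      have a := mul_le_mul_of_nonneg_right (ht i).1 (div_pos (hv 0) (hv i)).le
      have b := mul_le_mul_of_nonneg_right (ht j).2 (div_pos (hv 0) (hv j)).le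
      rw [add_mul, mul_assoc, mul_div_cancel₀ _ (hv _).ne'] at a b
      linarith
  have z0 := (mem_iInter₂.1 hz B0 hB0).1
  refine ⟨fun i => W z i / U z i, fun i => 1 / U z i, fun i => one_div_pos.2 (z0 i),
    fun B hB => ?_⟩
  obtain ⟨i0, hi0⟩ := Finite.exists_max fun i => lo B i * U z i - W z i
  refine ⟨lo B i0 * U z i0 - W z i0, fun i => ?_⟩
  rw [mul_one_div, ← add_div, le_div_iff₀ (z0 i), div_le_iff₀ (z0 i)]
  exact ⟨by linarith [hi0 i], by linarith [(mem_iInter₂.1 hz B hB).2 i0 i]⟩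

theorem relaxed (F : Finset ι) (a b : ι → Fin (n + 1) → ℝ) {η : ℝ} (η0 : 0 < η)
    (h : ∀ G ⊆ F, G.card ≤ 2 ^ n * (2 * n + 1) → ∃ p v : Fin (n + 1) → ℝ, v ≠ 0 ∧
      ∀ B ∈ G, ∃ t : ℝ, ∀ i, a B i ≤ p i + t * v i ∧ p i + t * v i ≤ b B i) :
    ∃ p v : Fin (n + 1) → ℝ, v ≠ 0 ∧
      ∀ B ∈ F, ∃ t : ℝ, ∀ i, a B i - η ≤ p i + t * v i ∧ p i + t * v i ≤ b B i + η := by
  classical
  by_contra hn
  let S : (Fin n → Bool) → Fin (n + 1) → Bool := fun k => Fin.cons true k
  let lo : (Fin n → Bool) → ι → Fin (n + 1) → ℝ := fun k B i =>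
    if S k i then a B i - η else -(b B i + η)
  let hi : (Fin n → Bool) → ι → Fin (n + 1) → ℝ := fun k B i =>
    if S k i then b B i + η else -(a B i - η)
  have eq : ∀ k B i (x : ℝ), lo k B i ≤ sb (S k i) * x ∧ sb (S k i) * x ≤ hi k B i ↔
      a B i - η ≤ x ∧ x ≤ b B i + η := fun k B i x => by
    simp only [lo, hi]
    cases S k i <;> simp [sb]
    constructor <;> rintro ⟨_, _⟩ <;> constructor <;> linarith
  have : ∀ k, ∃ G ⊆ F, G.card ≤ 2 * n + 1 ∧ ¬∃ p v : Fin (n + 1) → ℝ, (∀ i, 0 < v i) ∧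
      ∀ B ∈ G, ∃ t : ℝ, ∀ i, lo k B i ≤ p i + t * v i ∧ p i + t * v i ≤ hi k B i := fun k => by
    by_contra hk
    obtain ⟨p, v, hv, r⟩ := orth F (lo k) (hi k) fun G hG hc => by
      by_contra e
      exact hk ⟨G, hG, hc, e⟩
    refine hn ⟨fun i => sb (S k i) * p i, fun i => sb (S k i) * v i, fun e => ?_, fun B hB => ?_⟩
    · simpa [S, sb, (hv 0).ne'] using congrFun e 0
    · obtain ⟨t, ht⟩ := r B hB
      refine ⟨t, fun i => (eq k B i _).1 ?_⟩
      rw [show sb (S k i) * (sb (S k i) * p i + t * (sb (S k i) * v i)) = p i + t * v i by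
        linear_combination (p i + t * v i) * sb_sq (S k i)]
      exact ht i
  choose G hG hc hno using this
  obtain ⟨p, v, -, r⟩ := h (Finset.univ.biUnion G) (Finset.biUnion_subset.2 fun k _ => hG k)
    ((Finset.card_biUnion_le_card_mul _ _ _ fun k _ => hc k).trans_eq (by simp))
  wlog v0 : 0 ≤ v 0 generalizing v
  · refine this (-v) (fun B hB => ?_) (by simp only [Pi.neg_apply]; linarith)
    obtain ⟨t, ht⟩ := r B hB
    exact ⟨-t, by simpa using ht⟩
  choose! t ht using r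
  let k : Fin n → Bool := fun i => decide (0 ≤ v i.succ)
  have mo : ∀ i, 0 ≤ sb (S k i) * v i := fun i => by
    refine Fin.cases (by simpa [S, sb]) (fun i => ?_) i
    by_cases e : 0 ≤ v i.succ <;> simp [S, sb, k, e]
    linarith
  obtain ⟨δ, d0, hδ⟩ := (Eventually.and (self_mem_nhdsWithin : ∀ᶠ δ in 𝓝[>] (0 : ℝ), 0 < δ)
    (((eventually_all_finset (G k)).2 fun B _ => ((by fun_prop : Continuous fun δ : ℝ =>
      |t B * δ|).tendsto 0).eventually_lt tendsto_const_nhds (by simpa using η0)).filter_mono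
        nhdsWithin_le_nhds)).exists
  refine hno k ⟨fun i => sb (S k i) * p i, fun i => sb (S k i) * v i + δ,
    fun i => by linarith [mo i], fun B hB => ⟨t B, fun i => ?_⟩⟩
  rw [show sb (S k i) * p i + t B * (sb (S k i) * v i + δ) =
    sb (S k i) * (p i + t B * v i + sb (S k i) * (t B * δ)) by
      linear_combination (-t B * δ) * sb_sq (S k i), eq]
  have := ht B (Finset.mem_biUnion.2 ⟨k, Finset.mem_univ _, hB⟩) i
  have := abs_lt.1 (hδ B hB)
  cases S k i <;> simp only [sb, if_true, Bool.false_eq_true, if_false] <;> constructor <;> linarith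

theorem santalo (F : Finset ι) (a b : ι → Fin (n + 1) → ℝ)
    (h : ∀ G ⊆ F, G.card ≤ 2 ^ n * (2 * n + 1) → ∃ p v : Fin (n + 1) → ℝ, v ≠ 0 ∧
      ∀ B ∈ G, ∃ t : ℝ, ∀ i, a B i ≤ p i + t * v i ∧ p i + t * v i ≤ b B i) :
    ∃ p v : Fin (n + 1) → ℝ, v ≠ 0 ∧
      ∀ B ∈ F, ∃ t : ℝ, ∀ i, a B i ≤ p i + t * v i ∧ p i + t * v i ≤ b B i := by
  rcases F.eq_empty_or_nonempty with rfl | ⟨B0, hB0⟩
  · exact h ∅ subset_rfl (by simp)
  obtain ⟨M, hM⟩ := Finite.bddAbove_range fun z : F × Fin (n + 1) => |a z.1 z.2| + |b z.1 z.2|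
  let K : ℕ → Set ((Fin (n + 1) → ℝ) × (Fin (n + 1) → ℝ) × (F → ℝ)) := fun m =>
    (closedBall 0 (M + 1) ×ˢ sphere 0 1 ×ˢ closedBall 0 (2 * (M + 1))) ∩ ⋂ B : F, ⋂ i,
      {z | a B i - 1 / ((m : ℝ) + 1) ≤ z.1 i + z.2.2 B * z.2.1 i} ∩
        {z | z.1 i + z.2.2 B * z.2.1 i ≤ b B i + 1 / ((m : ℝ) + 1)}
  have cK : ∀ m, IsCompact (K m) := fun m => ((isCompact_closedBall _ _).prod
    ((isCompact_sphere _ _).prod (isCompact_closedBall _ _))).inter_right (isClosed_iInter fun B =>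
      isClosed_iInter fun i => (isClosed_le continuous_const (by fun_prop)).inter
        (isClosed_le (by fun_prop) continuous_const))
  obtain ⟨z, hz⟩ := IsCompact.nonempty_iInter_of_sequence_nonempty_isCompact_isClosed K
    (fun m => inter_subset_inter_right _ (iInter_mono fun B => iInter_mono fun i z hz => by
      have := Nat.one_div_le_one_div (α := ℝ) (Nat.le_succ m)
      exact ⟨le_trans (sub_le_sub_left this _) hz.1, le_trans hz.2 (add_le_add_right this _)⟩))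
    (fun m => by
      obtain ⟨p, v, v0, r⟩ := relaxed F a b (Nat.one_div_pos_of_nat (n := m)) h
      choose! t ht using r
      have n0 := norm_pos_iff.2 v0
      have m1 : 1 / ((m : ℝ) + 1) ≤ 1 := by
        simpa using Nat.one_div_le_one_div (α := ℝ) (Nat.zero_le m)
      have M0 : 0 ≤ M := le_trans (by positivity) (hM ⟨(⟨B0, hB0⟩, 0), rfl⟩)
      have bd : ∀ B ∈ F, ‖p + t B • v‖ ≤ M + 1 := fun B hB =>
        (pi_norm_le_iff_of_nonneg (by linarith)).2 fun i => by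
          have := hM ⟨(⟨B, hB⟩, i), rfl⟩
          have := ht B hB i
          refine abs_le.2 ⟨?_, ?_⟩ <;> simp only [Pi.add_apply, Pi.smul_apply, smul_eq_mul] at * <;>
            linarith [neg_abs_le (a B i), le_abs_self (b B i), abs_nonneg (a B i),
              abs_nonneg (b B i)]
      refine ⟨(p + t B0 • v, ‖v‖⁻¹ • v, fun B => (t B - t B0) * ‖v‖), ⟨by simpa using bd B0 hB0,
        by simpa using norm_smul_inv_norm (𝕜 := ℝ) v0,
        mem_closedBall_zero_iff.2 ((pi_norm_le_iff_of_nonneg (by linarith)).2 fun B => ?_)⟩,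
        mem_iInter₂.2 fun B i => ?_⟩
      · have := norm_sub_le (p + t B • v) (p + t B0 • v)
        rw [add_sub_add_left_eq_sub, ← sub_smul, norm_smul] at this
        rw [norm_mul, norm_norm]
        linarith [bd B B.2, bd B0 hB0]
      · have : (p + t B0 • v) i + (t B - t B0) * ‖v‖ * (‖v‖⁻¹ • v) i = p i + t B * v i := by
          simp only [Pi.add_apply, Pi.smul_apply, smul_eq_mul]
          field_simp
          ring
        simpa only [mem_inter_iff, mem_ofPred_eq, this] using ht B B.2 i)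
    (cK 0) fun m => (cK m).isClosed
  refine ⟨z.1, z.2.1, fun e => by simpa [e] using (mem_iInter.1 hz 0).1.2.1, fun B hB =>
    ⟨z.2.2 ⟨B, hB⟩, fun i => ⟨le_of_forall_pos_le_add fun ε ε0 => ?_,
      le_of_forall_pos_le_add fun ε ε0 => ?_⟩⟩⟩ <;>
  · obtain ⟨m, hm⟩ := exists_nat_one_div_lt ε0
    have := mem_iInter₂.1 (mem_iInter.1 hz m).2 ⟨B, hB⟩ i
    simp only [mem_inter_iff, mem_ofPred_eq] at this
    linarith

end Pool.Agent.H.MP_5f7e36_co
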