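import Pool.Agent.H.MP_de9148_co.B

namespace Pool.Agent.H.MP_5f7e36_co

open Pool.Agent.H.MP_de9148_co

theorem sharp (d : ℕ) (hd3 : 3 ≤ d) : ∃ F : Finset (Set (Fin d → ℝ)),
    (∀ B ∈ F, ∃ a b : Fin d → ℝ, (∀ i, a i < b i) ∧ B = {x | ∀ i, a i ≤ x i ∧ x i ≤ b i}) ∧
    (∀ G ⊆ F, G.card < 2 ^ (d - 1) * (2 * d - 1) →
      ∃ p v : Fin d → ℝ, v ≠ 0 ∧ ∀ B ∈ G, ∃ t : ℝ, p + t • v ∈ B) ∧
    ¬∃ p v : Fin d → ℝ, v ≠ 0 ∧ ∀ B ∈ F, ∃ t : ℝ, p + t • v ∈ B := by
  classical
  obtain ⟨n, rfl⟩ : ∃ n, d = n + 1 := ⟨d - 1, by omega⟩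
  obtain ⟨α, β, p, u, hu, h1, h2⟩ := quad n
  choose! T hT using h1
  obtain ⟨M1, hM1⟩ := Finite.bddAbove_range fun z : (_ × _) × Fin (n + 1) =>
    |(p z.1.1 + T z.1.1 z.1.2 • u z.1.1) z.2|
  obtain ⟨M2, hM2⟩ := Finite.bddAbove_range fun x => |α x| + |β x|
  let M := max M1 M2 + 1
  have m1 : ∀ x x' i, |(p x + T x x' • u x) i| ≤ M := fun x x' i =>
    (hM1 ⟨((x, x'), i), rfl⟩).trans ((le_max_left _ _).trans (lt_add_one _).le)
  have m2 : ∀ x, |α x| + |β x| < M := fun x =>
    (hM2 ⟨x, rfl⟩).trans_lt ((le_max_right _ _).trans_lt (lt_add_one _))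
  have ne : ∀ j : Fin (n + 1), j + 1 ≠ j := fun j h => by
    have : (1 : Fin (n + 1)) = 0 := add_eq_left.1 h
    rw [Fin.one_eq_zero_iff] at this
    omega
  let S : (Fin n → Bool) → Fin (n + 1) → Bool := fun k => Fin.snoc (α := fun _ => Bool) k true
  let lo : (Fin n → Bool) × Option (Fin n × Bool) → Fin (n + 1) → ℝ := fun x i =>
    if i = hd x.2 + 1 then α x else -M
  let hi : (Fin n → Bool) × Option (Fin n × Bool) → Fin (n + 1) → ℝ := fun x i =>
    if i = hd x.2 then β x else M
  let B : (Fin n → Bool) × Option (Fin n × Bool) → Set (Fin (n + 1) → ℝ) := fun x =>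
    {z | ∀ i, lo x i ≤ sg (S x.1 i) true * z i ∧ sg (S x.1 i) true * z i ≤ hi x i}
  have hit : ∀ x x', x ≠ x' → ∃ t : ℝ, p x + t • u x ∈ B x' := fun x x' h =>
    ⟨T x x', fun i => by
      have a : |sg (S x'.1 i) true * (p x + T x x' • u x) i| ≤ M := by
        rw [abs_mul, show |sg (S x'.1 i) true| = 1 by unfold sg; split_ifs <;> simp, one_mul]
        exact m1 x x' i
      simp only [lo, hi]
      constructor <;> split_ifs with e
      · exact e ▸ (hT x x' h).1
      · exact (abs_le.1 a).1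
      · exact e ▸ (hT x x' h).2
      · exact (abs_le.1 a).2⟩
  have no : ∀ q v : Fin (n + 1) → ℝ, ¬∀ x, ∃ t : ℝ, q + t • v ∈ B x := fun q v h =>
    h2 q v fun x => by
      obtain ⟨t, ht⟩ := h x
      exact ⟨t, by simpa [lo] using (ht (hd x.2 + 1)).1, by simpa [hi] using (ht (hd x.2)).2⟩
  have inj : Function.Injective B := fun x x' e => by
    by_contra h
    refine no (p x) (u x) fun z => ?_
    by_cases k : x = z
    · exact k ▸ e ▸ hit x x' h
    · exact hit x z k
  refine ⟨Finset.univ.image B, ?_, fun G hG hc => ?_, ?_⟩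
  · simp only [Finset.mem_image, Finset.mem_univ, true_and]
    rintro _ ⟨x, rfl⟩
    have lh : ∀ i, lo x i < hi x i := fun i => by
      have := m2 x
      have := abs_nonneg (α x)
      have := abs_nonneg (β x)
      have := le_abs_self (α x)
      have := neg_abs_le (β x)
      simp only [lo, hi]
      split_ifs with e e' <;> try linarith
      exact (ne _ (e.symm.trans e')).elim
    refine ⟨fun i => if S x.1 i then lo x i else -hi x i,
      fun i => if S x.1 i then hi x i else -lo x i, fun i => ?_,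
      Set.ext fun z => forall_congr' fun i => ?_⟩
    · have := lh i
      simp only
      split_ifs <;> linarith
    · simp only
      cases S x.1 i <;> simp [sg]
      constructor <;> rintro ⟨a, b⟩ <;> constructor <;> linarith
  · obtain ⟨x, hx⟩ : ∃ x, B x ∉ G := by
      by_contra h
      push Not at h
      have := Finset.card_le_card (show Finset.univ.image B ⊆ G from fun C hC => by
        obtain ⟨x, -, rfl⟩ := Finset.mem_image.1 hC
        exact h x)
      rw [Finset.card_image_of_injective _ inj] at this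
      simp only [Finset.card_univ, Fintype.card_prod, Fintype.card_fun, Fintype.card_bool,
        Fintype.card_fin, Fintype.card_option] at this
      rw [show 2 * (n + 1) - 1 = n * 2 + 1 by omega, Nat.add_sub_cancel] at hc
      omega
    refine ⟨p x, u x, hu x, fun C hC => ?_⟩
    obtain ⟨z, -, rfl⟩ := Finset.mem_image.1 (hG hC)
    exact hit x z fun e => hx (e ▸ hC)
  · rintro ⟨q, v, -, h⟩
    exact no q v fun x => h _ (Finset.mem_image_of_mem _ (Finset.mem_univ x))

end Pool.Agent.H.MP_5f7e36_co
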